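import Pool.Agent.Y85.NV.Syl

/-!
# The filtration by Sylow subgroups of centralisers (for the project NV)
-/

set_option autoImplicit false

open scoped Classical Pointwise

noncomputable section

namespace Pool.Agent.Y85.NV

open Pool.Agent.Y63.NV

section

variable {F : Type} [Field F] {Γ : Type} [Group Γ] [Finite Γ]

/-- the conjugation of a `p`-subgroup on the level sets -/
@[reducible] def lvl (R : Subgroup Γ) (d : Γ → F) (hd : ∀ r ∈ R, ∀ g, d (r * g * r⁻¹) = d g) (a : F) :
    MulAction R {g : Γ // d g = a} where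
  smul r g := ⟨r * g.1 * (r : Γ)⁻¹, by rw [hd r r.2]; exact g.2⟩
  one_smul g := by
    apply Subtype.ext
    change ((1 : R) : Γ) * g.1 * ((1 : R) : Γ)⁻¹ = g.1
    simp
  mul_smul r s g := by
    apply Subtype.ext
    change ((r * s : R) : Γ) * g.1 * ((r * s : R) : Γ)⁻¹ = r * (s * g.1 * (s : Γ)⁻¹) * (r : Γ)⁻¹
    simp [mul_assoc]

theorem sum_zero (p : ℕ) [Fact p.Prime] [CharP F p] (R : Subgroup Γ) (hR : IsPGroup p R)
    (d : Γ → F) (hd : ∀ r ∈ R, ∀ g, d (r * g * r⁻¹) = d g)
    (h0 : ∀ g, (∀ r ∈ R, r * g = g * r) → d g = 0) : ∑ᶠ g, d g = 0 := by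
  have : Fintype Γ := Fintype.ofFinite Γ
  rw [finsum_eq_sum_of_fintype]
  have h1 := Finset.sum_comp (s := (Finset.univ : Finset Γ)) (fun x : F => x) d
  rw [h1]
  apply Finset.sum_eq_zero
  intro a _
  by_cases ha : a = 0
  · rw [ha, smul_zero]
  · let _ := lvl R d hd a
    have h2 := hR.card_modEq_card_fixedPoints {g : Γ // d g = a}
    have h3 : Nat.card (MulAction.fixedPoints R {g : Γ // d g = a}) = 0 := by
      rw [Nat.card_eq_zero]
      left
      refine ⟨?_⟩
      rintro ⟨g, hg⟩
      apply ha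
      rw [← g.2]
      apply h0
      intro r hr
      have h4 := congrArg Subtype.val (hg ⟨r, hr⟩)
      change r * g.1 * r⁻¹ = g.1 at h4
      rwa [mul_inv_eq_iff_eq_mul] at h4
    rw [h3] at h2
    have h4 : (Finset.univ.filter (fun g => d g = a)).card = Nat.card {g : Γ // d g = a} := by
      rw [Nat.card_eq_fintype_card, Fintype.card_subtype]
    rw [h4, nsmul_eq_mul, (CharP.cast_eq_zero_iff F p _).2 ((Nat.modEq_zero_iff_dvd).1 h2),
      zero_mul]

theorem pp_conj (p : ℕ) (h x : Γ) : pp p (h * x * h⁻¹) = h * pp p x * h⁻¹ := conj_pow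

/-- The key lemma. -/
theorem key {p : ℕ} [Fact p.Prime] [CharP F p] {N H : Subgroup Γ} {z : Γ → F}
    (hz : ∀ h ∈ H, ∀ x : Γ, z (h * x * h⁻¹) = z x) {X Y : Set (Subgroup Γ)} (hX : Stb H X)
    (hY : Stb H Y) (hup : ∀ R ∈ Y, ∀ P ∈ X, R ≤ P → P ∈ Y) {w : Γ → F}
    (hw : w ∈ VS (SX p N H X \ SX p N H Y) H) {x : Γ} (hx : x ∈ SX p N H Y) :
    ∑ᶠ g : Γ, z g * w (pp p (g * x)) = 0 := by
  obtain ⟨_, _, R, hR, hs⟩ := hx
  refine sum_zero p R hs.pg _ ?_ ?_
  · intro r hr g
    have h1 : r * g * r⁻¹ * x = r * (g * x) * r⁻¹ := by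
      have h2 : r⁻¹ * x = x * r⁻¹ := hs.cent _ (R.inv_mem hr)
      rw [mul_assoc, h2]
      simp [mul_assoc]
    rw [hz r (hs.le hr), h1, pp_conj, hw.2 r (hs.le hr)]
  · intro g hg
    by_contra hcon
    have h1 : w (pp p (g * x)) ≠ 0 := right_ne_zero_of_mul hcon
    have h2 : pp p (g * x) ∈ SX p N H X \ SX p N H Y := by
      by_contra h3
      exact h1 (hw.1 _ h3)
    obtain ⟨⟨h3, h4, R1, hR1, hs1⟩, h5⟩ := h2
    apply h5
    have h6 : ∀ r ∈ R, r * pp p (g * x) = pp p (g * x) * r := by
      intro r hr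
      have h7 : Commute r (g * x) := by
        change r * (g * x) = g * x * r
        rw [← mul_assoc, hg r hr, mul_assoc, hs.cent r hr, mul_assoc]
      exact h7.pow_right _
    obtain ⟨P, hP, hsP⟩ := exists_syl hs.le hs.pg h6
    obtain ⟨h, hh, rfl⟩ := hs1.conj_of hsP
    exact ⟨h3, h4, _, hup R hR _ (hX h hh R1 hR1) hP, hsP⟩

theorem top_apply (p : ℕ) (z : Γ → F) (S : Set Γ) (v : Γ → F) (x : Γ) :
    Top p z S v x = if x ∈ S then ∑ᶠ g : Γ, z g * v (pp p (g * x)) else 0 := rfl

theorem top_mem {p : ℕ} {H : Subgroup Γ} {z : Γ → F}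
    (hz : ∀ h ∈ H, ∀ x : Γ, z (h * x * h⁻¹) = z x) {S S' : Set Γ}
    (hS : ∀ h ∈ H, ∀ x ∈ S, h * x * h⁻¹ ∈ S) {v : Γ → F} (hv : v ∈ VS S' H) :
    Top p z S v ∈ VS S H := by
  refine ⟨?_, ?_⟩
  · intro x hx
    rw [top_apply, if_neg hx]
  · intro h hh x
    rw [top_apply, top_apply]
    by_cases hx : x ∈ S
    · rw [if_pos hx, if_pos (hS h hh x hx), ← finsum_comp_equiv (MulAut.conj h).toEquiv]
      refine finsum_congr fun g => ?_
      change z (h * g * h⁻¹) * v (pp p (h * g * h⁻¹ * (h * x * h⁻¹))) = _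
      have h1 : h * g * h⁻¹ * (h * x * h⁻¹) = h * (g * x) * h⁻¹ := by group
      rw [hz h hh, h1, pp_conj, hv.2 h hh]
    · have hx' : h * x * h⁻¹ ∉ S := by
        intro hx'
        apply hx
        have h1 := hS _ (H.inv_mem hh) _ hx'
        simpa [mul_assoc] using h1
      rw [if_neg hx, if_neg hx']

theorem VS_mono {S S' : Set Γ} (h : S ⊆ S') (H : Subgroup Γ) : (VS S H : Submodule F (Γ → F)) ≤
    VS S' H :=
  fun _ hv => ⟨fun x hx => hv.1 x fun hx' => hx (h hx'), hv.2⟩

/-- restriction of functions -/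
def rst (S : Set Γ) : Module.End F (Γ → F) where
  toFun v x := if x ∈ S then v x else 0
  map_add' v w := by
    funext x
    by_cases hx : x ∈ S <;> simp [hx]
  map_smul' c v := by
    funext x
    by_cases hx : x ∈ S <;> simp [hx]

theorem rst_apply (S : Set Γ) (v : Γ → F) (x : Γ) :
    rst S v x = if x ∈ S then v x else 0 := rfl

theorem rst_mem {H : Subgroup Γ} {S S' : Set Γ} (hS : ∀ h ∈ H, ∀ x ∈ S, h * x * h⁻¹ ∈ S)
    {v : Γ → F} (hv : v ∈ VS S' H) : rst S v ∈ VS S H := by
  refine ⟨fun x hx => by rw [rst_apply, if_neg hx], ?_⟩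
  intro h hh x
  rw [rst_apply, rst_apply, hv.2 h hh]
  by_cases hx : x ∈ S
  · rw [if_pos hx, if_pos (hS h hh x hx)]
  · have hx' : h * x * h⁻¹ ∉ S := by
      intro hx'
      apply hx
      have h1 := hS _ (H.inv_mem hh) _ hx'
      simpa [mul_assoc] using h1
    rw [if_neg hx, if_neg hx']

theorem gen_eq {E : Type} [AddCommGroup E] [Module F E] {T T' : Module.End F E} {V : Submodule F E}
    (h1 : ∀ v ∈ V, T v = T' v) (h2 : ∀ v ∈ V, T' v ∈ V) (c : F) :
    V ⊓ T.maxGenEigenspace c = V ⊓ T'.maxGenEigenspace c := by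
  have key : ∀ k : ℕ, ∀ v ∈ V, ((T - c • (1 : Module.End F E)) ^ k) v =
      ((T' - c • (1 : Module.End F E)) ^ k) v := by
    intro k
    induction k with
    | zero => intro v _; simp
    | succ k ih =>
      intro v hv
      have h3 : (T - c • (1 : Module.End F E)) v = (T' - c • (1 : Module.End F E)) v := by
        simp [h1 v hv]
      have h4 : (T' - c • (1 : Module.End F E)) v ∈ V := by
        have h5 : (T' - c • (1 : Module.End F E)) v = T' v - c • v := by simp
        rw [h5]
        exact V.sub_mem (h2 v hv) (V.smul_mem c hv)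
      rw [pow_succ, pow_succ, Module.End.mul_apply, Module.End.mul_apply, h3, ih _ h4]
  ext v
  rw [Submodule.mem_inf, Submodule.mem_inf, Module.End.mem_maxGenEigenspace,
    Module.End.mem_maxGenEigenspace]
  constructor
  · rintro ⟨hv, k, hk⟩
    exact ⟨hv, k, by rw [← key k v hv]; exact hk⟩
  · rintro ⟨hv, k, hk⟩
    exact ⟨hv, k, by rw [key k v hv]; exact hk⟩

/-- One step. -/
theorem gm_step (hLA : S_LA) {p : ℕ} [Fact p.Prime] [IsAlgClosed F] [CharP F p]
    {N H : Subgroup Γ} {z : Γ → F} (hN : ∀ h ∈ H, ∀ n ∈ N, h * n * h⁻¹ ∈ N)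
    (hz : ∀ h ∈ H, ∀ x : Γ, z (h * x * h⁻¹) = z x) {X Y O : Set (Subgroup Γ)}
    (hY : Stb H Y) (hO : Stb H O) (hX : X = O ∪ Y) (hd : ∀ R ∈ O, R ∉ Y)
    (hup : ∀ R ∈ Y, ∀ P ∈ X, R ≤ P → P ∈ Y) (c : F) :
    gm p z (SX p N H X) H c = gm p z (SX p N H O) H c + gm p z (SX p N H Y) H c := by
  have hXs : Stb H X := by
    rw [hX]
    rintro h hh R (hR | hR)
    · exact Or.inl (hO h hh R hR)
    · exact Or.inr (hY h hh R hR)
  have hOX : SX p N H O ⊆ SX p N H X := SX_mono (by rw [hX]; exact Set.subset_union_left)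
  have hYX : SX p N H Y ⊆ SX p N H X := SX_mono (by rw [hX]; exact Set.subset_union_right)
  have hXu : SX p N H X = SX p N H O ∪ SX p N H Y := by rw [hX, SX_union]
  have hOY : SX p N H O ⊆ SX p N H X \ SX p N H Y := fun x hx => ⟨hOX hx, SX_disj hO hd hx⟩
  have cX : ∀ h ∈ H, ∀ x ∈ SX p N H X, h * x * h⁻¹ ∈ SX p N H X :=
    fun h hh x hx => SX_conj hXs hN hh hx
  have cY : ∀ h ∈ H, ∀ x ∈ SX p N H Y, h * x * h⁻¹ ∈ SX p N H Y :=
    fun h hh x hx => SX_conj hY hN hh hx
  have cO : ∀ h ∈ H, ∀ x ∈ SX p N H O, h * x * h⁻¹ ∈ SX p N H O :=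
    fun h hh x hx => SX_conj hO hN hh hx
  have h1 := hLA F (Γ → F) (Top p z (SX p N H X)) (Top p z (SX p N H Y)) (rst (SX p N H Y))
    (VS (SX p N H X) H) (VS (SX p N H O) H) (VS (SX p N H Y) H)
    (fun v hv => top_mem hz cX hv) (fun v hv => top_mem hz cY hv) (VS_mono hOX H)
    (fun v hv => rst_mem cY hv)
    (by
      intro w hw
      refine ⟨w, VS_mono hYX H hw, ?_⟩
      funext x
      rw [rst_apply]
      by_cases hx : x ∈ SX p N H Y
      · rw [if_pos hx]
      · rw [if_neg hx, hw.1 x hx])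
    (by
      intro v hv
      constructor
      · intro h
        refine ⟨?_, hv.2⟩
        intro x hx
        by_cases hx' : x ∈ SX p N H Y
        · have h2 := congrFun h x
          rw [rst_apply, if_pos hx'] at h2
          exact h2
        · apply hv.1
          rw [hXu]
          rintro (h3 | h3)
          · exact hx h3
          · exact hx' h3
      · intro h
        funext x
        rw [rst_apply]
        by_cases hx : x ∈ SX p N H Y
        · rw [if_pos hx]
          apply h.1
          intro h3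
          exact SX_disj hO hd h3 hx
        · rw [if_neg hx]
          rfl)
    (by
      intro v hv
      funext x
      rw [rst_apply, top_apply, top_apply]
      by_cases hx : x ∈ SX p N H Y
      · rw [if_pos hx, if_pos hx, if_pos (hYX hx)]
        have h2 : v - rst (SX p N H Y) v ∈ VS (SX p N H X \ SX p N H Y) H := by
          have h3 : v - rst (SX p N H Y) v ∈ VS (SX p N H X) H :=
            Submodule.sub_mem _ hv (VS_mono hYX H (rst_mem cY hv))
          refine ⟨?_, h3.2⟩
          intro y hy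
          by_cases hy' : y ∈ SX p N H Y
          · rw [Pi.sub_apply, rst_apply, if_pos hy', sub_self]
          · exact h3.1 y fun hy2 => hy ⟨hy2, hy'⟩
        have h3 := key hz hXs hY hup h2 hx
        have h4 : ∑ᶠ g : Γ, z g * v (pp p (g * x)) =
            ∑ᶠ g : Γ, z g * (v - rst (SX p N H Y) v) (pp p (g * x)) +
              ∑ᶠ g : Γ, z g * rst (SX p N H Y) v (pp p (g * x)) := by
          rw [← finsum_add_distrib (Set.toFinite _) (Set.toFinite _)]
          refine finsum_congr fun g => ?_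
          rw [Pi.sub_apply]
          ring
        rw [h4, h3, zero_add]
      · rw [if_neg hx, if_neg hx])
    c
  have h2 : VS (SX p N H O) H ⊓ (Top p z (SX p N H X)).maxGenEigenspace c =
      VS (SX p N H O) H ⊓ (Top p z (SX p N H O)).maxGenEigenspace c := by
    apply gen_eq
    · intro v hv
      funext x
      rw [top_apply, top_apply]
      by_cases hx : x ∈ SX p N H O
      · rw [if_pos hx, if_pos (hOX hx)]
      · rw [if_neg hx]
        by_cases hx' : x ∈ SX p N H X
        · rw [if_pos hx']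
          have hx2 : x ∈ SX p N H Y := by
            rw [hXu] at hx'
            exact hx'.resolve_left hx
          exact key hz hXs hY hup (VS_mono hOY H hv) hx2
        · rw [if_neg hx']
    · intro v hv
      exact top_mem hz cO hv
  rw [h2] at h1
  exact h1

/-- the action on subgroups -/
@[reducible] def actS (H : Subgroup Γ) : MulAction H (Subgroup Γ) where
  smul h R := cj (h : Γ) R
  one_smul R := cj_one R
  mul_smul h k R := cj_mul (h : Γ) (k : Γ) R

theorem card_orb (H R : Subgroup Γ) :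
    Nat.card (orb H R) * Nat.card ↥(H ⊓ Subgroup.normalizer (R : Set Γ)) = Nat.card H := by
  let _ := actS H
  have h1 := Nat.card_congr (MulAction.orbitProdStabilizerEquivGroup H R)
  rw [Nat.card_prod] at h1
  have h2 : MulAction.orbit H R = orb H R := by
    ext S
    constructor
    · rintro ⟨h, rfl⟩
      exact ⟨h, h.2, rfl⟩
    · rintro ⟨h, hh, rfl⟩
      exact ⟨⟨h, hh⟩, rfl⟩
  have h3 : (MulAction.stabilizer H R).map H.subtype = H ⊓ Subgroup.normalizer (R : Set Γ) := by
    ext h
    rw [Subgroup.mem_inf, Subgroup.mem_map]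
    constructor
    · rintro ⟨k, hk, rfl⟩
      refine ⟨k.2, ?_⟩
      have h4 : cj (k : Γ) R = R := MulAction.mem_stabilizer_iff.1 hk
      rw [Subgroup.mem_normalizer_iff]
      intro y
      change y ∈ R ↔ (k : Γ) * y * (k : Γ)⁻¹ ∈ R
      constructor
      · intro hy
        rw [← h4, mem_cj]
        simpa [mul_assoc] using hy
      · intro hy
        rw [← h4, mem_cj] at hy
        simpa [mul_assoc] using hy
    · rintro ⟨h4, h5⟩
      refine ⟨⟨h, h4⟩, ?_, rfl⟩
      rw [MulAction.mem_stabilizer_iff]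
      change cj h R = R
      ext y
      rw [mem_cj]
      rw [Subgroup.mem_normalizer_iff] at h5
      have h6 := h5 (h⁻¹ * y * h)
      simpa [mul_assoc] using h6
  have h4 : Nat.card (MulAction.stabilizer H R) =
      Nat.card ↥(H ⊓ Subgroup.normalizer (R : Set Γ)) := by
    rw [← h3]
    exact (Subgroup.card_map_of_injective H.subtype_injective).symm
  rw [← h2, ← h4]
  exact h1

theorem main_ind (hLA : S_LA) {p : ℕ} [Fact p.Prime] [IsAlgClosed F] [CharP F p]
    {N H : Subgroup Γ} {z : Γ → F} (hN : ∀ h ∈ H, ∀ n ∈ N, h * n * h⁻¹ ∈ N)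
    (hz : ∀ h ∈ H, ∀ x : Γ, z (h * x * h⁻¹) = z x) (c : F) (X : Finset (Subgroup Γ))
    (hg : ∀ R ∈ X, Good p N H R) (hX : Stb H (X : Set (Subgroup Γ)))
    (hup : ∀ R ∈ X, ∀ P, Good p N H P → R ≤ P → P ∈ X) :
    Nat.card H * gm p z (SX p N H (X : Set (Subgroup Γ))) H c =
      ∑ R ∈ X, Nat.card ↥(H ⊓ Subgroup.normalizer (R : Set Γ)) *
        gm p z (SX p N H (orb H R)) H c := by
  induction X using Finset.strongInduction with
  | H X ih =>
    by_cases hne : X.Nonempty
    · obtain ⟨R0, hR0, hmin⟩ := X.exists_min_image (fun R => Nat.card R) hne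
      have hOX : orb H R0 ⊆ (X : Set (Subgroup Γ)) := by
        rintro _ ⟨h, hh, rfl⟩
        exact hX h hh R0 hR0
      let O : Finset (Subgroup Γ) := X.filter (fun R => R ∈ orb H R0)
      let Y : Finset (Subgroup Γ) := X.filter (fun R => R ∉ orb H R0)
      have hO : (O : Set (Subgroup Γ)) = orb H R0 := by
        ext R
        simp only [O, Finset.coe_filter, Set.mem_ofPred_eq]
        exact ⟨fun h => h.2, fun h => ⟨hOX h, h⟩⟩
      have hYX : Y ⊂ X := by
        refine Finset.filter_ssubset.2 ⟨R0, hR0, ?_⟩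
        exact fun h => h (self_orb H R0)
      have hYs : Stb H (Y : Set (Subgroup Γ)) := by
        intro h hh R hR
        have hR' := Finset.mem_filter.1 (Finset.mem_coe.1 hR)
        refine Finset.mem_coe.2 (Finset.mem_filter.2 ⟨hX h hh R hR'.1, ?_⟩)
        intro h3
        apply hR'.2
        have h4 := stb_orb H R0 _ (H.inv_mem hh) _ h3
        rwa [cj_inv_cj] at h4
      have hYup : ∀ R ∈ Y, ∀ P, Good p N H P → R ≤ P → P ∈ Y := by
        intro R hR P hP hRP
        have hR' := Finset.mem_filter.1 hR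
        refine Finset.mem_filter.2 ⟨hup R hR'.1 P hP hRP, ?_⟩
        rintro ⟨k, hk, rfl⟩
        apply hR'.2
        have h3 := hmin R hR'.1
        rw [← card_cj k R0] at h3
        have h4 : R = cj k R0 := Subgroup.eq_of_le_of_card_ge hRP h3
        rw [h4]
        exact ⟨k, hk, rfl⟩
      have hXu : (X : Set (Subgroup Γ)) = orb H R0 ∪ (Y : Set (Subgroup Γ)) := by
        ext R
        constructor
        · intro hR
          by_cases h : R ∈ orb H R0
          · exact Or.inl h
          · exact Or.inr (Finset.mem_coe.2 (Finset.mem_filter.2 ⟨hR, h⟩))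
        · rintro (hR | hR)
          · exact hOX hR
          · exact Finset.mem_coe.2 (Finset.mem_filter.1 (Finset.mem_coe.1 hR)).1
      have h1 := gm_step hLA hN hz hYs (stb_orb H R0) hXu
        (fun R hR hR' => (Finset.mem_filter.1 (Finset.mem_coe.1 hR')).2 hR)
        (fun R hR P hP hRP => Finset.mem_coe.2
          (hYup R (Finset.mem_coe.1 hR) P (hg P (Finset.mem_coe.1 hP)) hRP)) c
      have h2 := ih Y hYX (fun R hR => hg R (Finset.mem_filter.1 hR).1) hYs hYup
      have h3 : ∑ R ∈ O, Nat.card ↥(H ⊓ Subgroup.normalizer (R : Set Γ)) *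
          gm p z (SX p N H (orb H R)) H c = Nat.card H * gm p z (SX p N H (orb H R0)) H c := by
        have h4 : ∀ R ∈ O, Nat.card ↥(H ⊓ Subgroup.normalizer (R : Set Γ)) *
            gm p z (SX p N H (orb H R)) H c =
            Nat.card ↥(H ⊓ Subgroup.normalizer (R0 : Set Γ)) *
            gm p z (SX p N H (orb H R0)) H c := by
          intro R hR
          have h5 : R ∈ orb H R0 := (Finset.mem_filter.1 hR).2
          have h6 := card_orb H R
          rw [orb_eq h5] at h6 ⊢
          have h7 := card_orb H R0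
          have h8 : 0 < Nat.card (orb H R0) := by
            have : Nonempty (orb H R0) := ⟨⟨R0, self_orb H R0⟩⟩
            exact Nat.card_pos
          rw [← h7] at h6
          rw [Nat.eq_of_mul_eq_mul_left h8 h6]
        rw [Finset.sum_congr rfl h4, Finset.sum_const, smul_eq_mul, ← mul_assoc]
        congr 1
        have h5 : O.card = Nat.card (orb H R0) := by
          rw [← hO]
          simp
        rw [h5]
        exact card_orb H R0
      rw [h1, mul_add, h2, ← h3]
      exact Finset.sum_filter_add_sum_filter_not X (fun R => R ∈ orb H R0) _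
    · rw [Finset.not_nonempty_iff_eq_empty] at hne
      subst hne
      rw [Finset.sum_empty]
      have h1 : SX p N H ((∅ : Finset (Subgroup Γ)) : Set (Subgroup Γ)) = ∅ := by
        ext x
        simp [SX]
      have h2 : (VS (∅ : Set Γ) H : Submodule F (Γ → F)) = ⊥ := by
        rw [eq_bot_iff]
        intro v hv
        rw [Submodule.mem_bot]
        funext x
        exact hv.1 x (by simp)
      rw [h1, gm, h2, bot_inf_eq, finrank_bot, mul_zero]

end

theorem filt (h1 : S_LA) (h2 : S_FILTA) : S_FILT := by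
  intro p hp F _ _ _ Γ _ _ N H z he c
  have hN := he.norm
  have : Fintype (Subgroup Γ) := Fintype.ofFinite _
  have h3 := main_ind h1 hN he.inv c (Finset.univ.filter (fun R => Good p N H R))
    (fun R hR => (Finset.mem_filter.1 hR).2)
    (by
      intro h hh R hR
      rw [Finset.coe_filter] at hR ⊢
      exact ⟨Finset.mem_univ _, stb_good hN h hh R hR.2⟩)
    (fun R _ P hP _ => Finset.mem_filter.2 ⟨Finset.mem_univ _, hP⟩)
  have h4 : ((Finset.univ.filter (fun R => Good p N H R) : Finset (Subgroup Γ)) :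
      Set (Subgroup Γ)) = {R | Good p N H R} := by
    ext R
    simp
  rw [h4, ← s0_eq he.le hN he.pq] at h3
  rw [h3, finsum_eq_sum_of_fintype, Finset.sum_filter]
  refine Finset.sum_congr rfl fun R _ => ?_
  by_cases hR : IsPGroup p R ∧ R ≤ H ∧ H ≤ N ⊔ R
  · rw [if_pos hR, if_pos (show Good p N H R from hR),
      ← h2 p F Γ N H z he c R hR.1 hR.2.1 hR.2.2, sc_eq hR.2.1 hR.1 hN]
  · rw [if_neg hR, if_neg (show ¬ Good p N H R from hR)]

end Pool.Agent.Y85.NV
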