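import Pool.Agent.Y63.NV.Stm

/-!
# Sylow subgroups of centralisers (for the project NV)
-/

set_option autoImplicit false

open scoped Classical Pointwise

noncomputable section

namespace Pool.Agent.Y85.NV

open Pool.Agent.Y63.NV

section

variable {Γ : Type} [Group Γ]

/-- the conjugate subgroup -/
def cj (h : Γ) (R : Subgroup Γ) : Subgroup Γ := R.comap (MulAut.conj h⁻¹).toMonoidHom

theorem mem_cj {h x : Γ} {R : Subgroup Γ} : x ∈ cj h R ↔ h⁻¹ * x * h ∈ R := by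
  simp [cj, Subgroup.mem_comap]

theorem cj_one (R : Subgroup Γ) : cj 1 R = R := by
  ext x
  simp [mem_cj]

theorem cj_mul (h k : Γ) (R : Subgroup Γ) : cj (h * k) R = cj h (cj k R) := by
  ext x
  simp [mem_cj, mul_assoc]

theorem cj_inv_cj (h : Γ) (R : Subgroup Γ) : cj h⁻¹ (cj h R) = R := by
  rw [← cj_mul, inv_mul_cancel, cj_one]

theorem cj_mono (h : Γ) {R S : Subgroup Γ} (hRS : R ≤ S) : cj h R ≤ cj h S := by
  intro x hx
  rw [mem_cj] at hx ⊢
  exact hRS hx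

theorem cj_le {h : Γ} {H R : Subgroup Γ} (hh : h ∈ H) (hR : R ≤ H) : cj h R ≤ H := by
  intro x hx
  rw [mem_cj] at hx
  have h1 := H.mul_mem (H.mul_mem hh (hR hx)) (H.inv_mem hh)
  simpa [mul_assoc] using h1

theorem cj_pgroup {p : ℕ} {h : Γ} {R : Subgroup Γ} (hR : IsPGroup p R) : IsPGroup p (cj h R) :=
  hR.comap_of_injective _ (MulAut.conj h⁻¹).injective

theorem cj_eq_map (h : Γ) (R : Subgroup Γ) : cj h R = R.map (MulAut.conj h).toMonoidHom := by
  ext x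
  rw [mem_cj, Subgroup.mem_map]
  constructor
  · intro hx
    refine ⟨_, hx, ?_⟩
    simp [MulAut.conj_apply, mul_assoc]
  · rintro ⟨y, hy, rfl⟩
    simpa [MulAut.conj_apply, mul_assoc] using hy

theorem card_cj (h : Γ) (R : Subgroup Γ) : Nat.card (cj h R) = Nat.card R := by
  rw [cj_eq_map]
  exact Subgroup.card_map_of_injective (MulAut.conj h).injective

/-- `R` is a Sylow `p`-subgroup of `C_H(x)`. -/
structure SYL (p : ℕ) (H : Subgroup Γ) (x : Γ) (R : Subgroup Γ) : Prop where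
  le : R ≤ H
  pg : IsPGroup p R
  cent : ∀ r ∈ R, r * x = x * r
  card : (Nat.card ↥(H ⊓ Subgroup.centralizer {x})).factorization p =
    (Nat.card R).factorization p

theorem SYL.le_cent {p : ℕ} {H : Subgroup Γ} {x : Γ} {R : Subgroup Γ} (h : SYL p H x R) :
    R ≤ H ⊓ Subgroup.centralizer {x} := by
  intro r hr
  exact Subgroup.mem_inf.2 ⟨h.le hr, Subgroup.mem_centralizer_singleton_iff.2 (h.cent r hr)⟩

theorem cj_centr (H : Subgroup Γ) {h : Γ} (hh : h ∈ H) (x : Γ) :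
    cj h (H ⊓ Subgroup.centralizer {x}) = H ⊓ Subgroup.centralizer {h * x * h⁻¹} := by
  ext y
  rw [mem_cj, Subgroup.mem_inf, Subgroup.mem_inf, Subgroup.mem_centralizer_singleton_iff,
    Subgroup.mem_centralizer_singleton_iff]
  constructor
  · rintro ⟨h1, h2⟩
    refine ⟨?_, ?_⟩
    · have h3 := H.mul_mem (H.mul_mem hh h1) (H.inv_mem hh)
      simpa [mul_assoc] using h3
    · have h3 := congrArg (fun t => h * t * h⁻¹) h2
      simpa [mul_assoc] using h3
  · rintro ⟨h1, h2⟩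
    refine ⟨H.mul_mem (H.mul_mem (H.inv_mem hh) h1) hh, ?_⟩
    have h3 := congrArg (fun t => h⁻¹ * t * h) h2
    simpa [mul_assoc] using h3

theorem SYL.conj {p : ℕ} {H : Subgroup Γ} {x : Γ} {R : Subgroup Γ} (hs : SYL p H x R) {h : Γ}
    (hh : h ∈ H) : SYL p H (h * x * h⁻¹) (cj h R) where
  le := cj_le hh hs.le
  pg := cj_pgroup hs.pg
  cent r hr := by
    rw [mem_cj] at hr
    have h3 := congrArg (fun t => h * t * h⁻¹) (hs.cent _ hr)
    simpa [mul_assoc] using h3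
  card := by
    rw [← cj_centr H hh x, card_cj, card_cj]
    exact hs.card

variable [Finite Γ]

theorem exists_syl {p : ℕ} [Fact p.Prime] {H : Subgroup Γ} {x : Γ} {Q : Subgroup Γ} (hQ : Q ≤ H)
    (hp : IsPGroup p Q) (hc : ∀ r ∈ Q, r * x = x * r) : ∃ P, Q ≤ P ∧ SYL p H x P := by
  set C := H ⊓ Subgroup.centralizer {x} with hC
  have h1 : Q ≤ C := by
    intro r hr
    exact Subgroup.mem_inf.2 ⟨hQ hr, Subgroup.mem_centralizer_singleton_iff.2 (hc r hr)⟩
  have h2 : IsPGroup p (Q.subgroupOf C) := hp.comap_of_injective _ C.subtype_injective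
  obtain ⟨P, hP⟩ := h2.exists_le_sylow
  refine ⟨(P : Subgroup C).map C.subtype, ?_, ?_, ?_, ?_, ?_⟩
  · intro r hr
    exact ⟨⟨r, h1 hr⟩, hP (Subgroup.mem_subgroupOf.2 hr), rfl⟩
  · rintro _ ⟨r, hr, rfl⟩
    exact r.2.1
  · exact P.isPGroup'.map _
  · rintro _ ⟨r, hr, rfl⟩
    exact Subgroup.mem_centralizer_singleton_iff.1 (Subgroup.mem_inf.1 r.2).2
  · rw [Subgroup.card_map_of_injective C.subtype_injective, P.card_eq_multiplicity,
      Nat.Prime.factorization_pow Fact.out, Finsupp.single_eq_same]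

theorem SYL.card_subgroupOf {p : ℕ} [Fact p.Prime] {H : Subgroup Γ} {x : Γ} {R : Subgroup Γ}
    (h : SYL p H x R) : Nat.card (R.subgroupOf (H ⊓ Subgroup.centralizer {x})) =
      p ^ (Nat.card ↥(H ⊓ Subgroup.centralizer {x})).factorization p := by
  rw [Nat.card_congr (Subgroup.subgroupOfEquivOfLe h.le_cent).toEquiv, h.card]
  obtain ⟨n, hn⟩ := (IsPGroup.iff_card).1 h.pg
  rw [hn, Nat.Prime.factorization_pow Fact.out, Finsupp.single_eq_same]

theorem SYL.conj_of {p : ℕ} [Fact p.Prime] {H : Subgroup Γ} {x : Γ} {R S : Subgroup Γ}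
    (hR : SYL p H x R) (hS : SYL p H x S) : ∃ h ∈ H, S = cj h R := by
  set C := H ⊓ Subgroup.centralizer {x} with hC
  let PR : Sylow p C := Sylow.ofCard (R.subgroupOf C) hR.card_subgroupOf
  let PS : Sylow p C := Sylow.ofCard (S.subgroupOf C) hS.card_subgroupOf
  obtain ⟨g, hg⟩ := MulAction.exists_smul_eq C PR PS
  refine ⟨g, g.2.1, ?_⟩
  have h1 : ∀ y : C, (y : Γ) ∈ S ↔ (g : Γ)⁻¹ * y * g ∈ R := by
    intro y
    have h2 : y ∈ PS ↔ y ∈ g • PR := by rw [hg]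
    have h3 : y ∈ PS ↔ (y : Γ) ∈ S := Subgroup.mem_subgroupOf
    have h4 : y ∈ g • PR ↔ g⁻¹ * y * g ∈ PR := by
      have h6 : ((g • PR : Sylow p C) : Subgroup C) = MulAut.conj g • (PR : Subgroup C) := rfl
      change y ∈ ((g • PR : Sylow p C) : Subgroup C) ↔ _
      rw [h6, Subgroup.mem_pointwise_smul_iff_inv_smul_mem]
      simp only [MulAut.smul_def, MulAut.inv_apply, MulAut.conj_symm_apply]
      exact Iff.rfl
    have h5 : g⁻¹ * y * g ∈ PR ↔ ((g⁻¹ * y * g : C) : Γ) ∈ R := Subgroup.mem_subgroupOf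
    rw [← h3, h2, h4, h5]
    simp
  ext y
  rw [mem_cj]
  constructor
  · intro hy
    exact (h1 ⟨y, hS.le_cent hy⟩).1 hy
  · intro hy
    have h2 : y ∈ C := by
      have h3 := C.mul_mem (C.mul_mem g.2 (hR.le_cent hy)) (C.inv_mem g.2)
      simpa [mul_assoc] using h3
    exact (h1 ⟨y, h2⟩).2 hy

/-- the members of `X` are the Sylow subgroups of the centralisers of the elements of `SX` -/
def SX (p : ℕ) (N H : Subgroup Γ) (X : Set (Subgroup Γ)) : Set Γ :=
  {x | x ∈ N ∧ ¬ p ∣ orderOf x ∧ ∃ R ∈ X, SYL p H x R}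

theorem sr_iff {p : ℕ} [Fact p.Prime] {N H R : Subgroup Γ} (hR : R ≤ H) (hp : IsPGroup p R)
    {x : Γ} : x ∈ SR p N (H ⊓ Subgroup.normalizer (R : Set Γ)) R ↔
      x ∈ N ∧ ¬ p ∣ orderOf x ∧ SYL p H x R := by
  have hpp : p.Prime := Fact.out
  constructor
  · rintro ⟨h1, h2, h3, h4⟩
    refine ⟨h1, h2, hR, hp, h3, ?_⟩
    set C := H ⊓ Subgroup.centralizer {x} with hC
    have hRC : R ≤ C := fun r hr =>
      Subgroup.mem_inf.2 ⟨hR hr, Subgroup.mem_centralizer_singleton_iff.2 (h3 r hr)⟩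
    obtain ⟨n, hn⟩ := (IsPGroup.iff_card).1 hp
    have h5 : (Nat.card R).factorization p = n := by
      rw [hn, Nat.Prime.factorization_pow hpp, Finsupp.single_eq_same]
    rw [h5] at h4 ⊢
    have hC0 : Nat.card C ≠ 0 := Nat.card_pos.ne'
    apply le_antisymm
    · by_contra hcon
      push Not at hcon
      have h6 : p ^ (n + 1) ∣ Nat.card C :=
        (hpp.pow_dvd_iff_le_factorization hC0).2 hcon
      have h7 : Nat.card (R.subgroupOf C) = p ^ n := by
        rw [Nat.card_congr (Subgroup.subgroupOfEquivOfLe hRC).toEquiv, hn]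
      have h8 := Sylow.prime_pow_dvd_card_normalizer h6 h7
      set D := Subgroup.normalizer ((R.subgroupOf C : Subgroup C) : Set C) with hD
      have h9 : D.map C.subtype ≤
          H ⊓ Subgroup.normalizer (R : Set Γ) ⊓ Subgroup.centralizer {x} := by
        rintro _ ⟨g, hg, rfl⟩
        have hg2 := Subgroup.mem_inf.1 g.2
        refine Subgroup.mem_inf.2 ⟨Subgroup.mem_inf.2 ⟨hg2.1, ?_⟩, hg2.2⟩
        have hg3 : g ∈ D := hg
        rw [hD, Subgroup.mem_normalizer_iff] at hg3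
        rw [Subgroup.mem_normalizer_iff]
        intro y
        constructor
        · intro hy
          have h10 := (hg3 ⟨y, hRC hy⟩).1 (Subgroup.mem_subgroupOf.2 hy)
          exact Subgroup.mem_subgroupOf.1 h10
        · intro hy
          have h11 : y ∈ C := by
            have h12 := C.mul_mem (C.mul_mem (C.inv_mem g.2) (hRC hy)) g.2
            simpa [mul_assoc] using h12
          have h10 := (hg3 ⟨y, h11⟩).2 (Subgroup.mem_subgroupOf.2 hy)
          exact Subgroup.mem_subgroupOf.1 h10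
      have h10 : Nat.card (D.map C.subtype) = Nat.card D :=
        Subgroup.card_map_of_injective C.subtype_injective
      have h11 := Subgroup.card_dvd_of_le h9
      rw [h10] at h11
      have h12 := h8.trans h11
      rw [hpp.pow_dvd_iff_le_factorization Nat.card_pos.ne', h4] at h12
      omega
    · rw [← h5]
      exact (Nat.factorization_le_iff_dvd Nat.card_pos.ne' hC0).2
        (Subgroup.card_dvd_of_le hRC) p
  · rintro ⟨h1, h2, h3⟩
    refine ⟨h1, h2, h3.cent, ?_⟩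
    apply le_antisymm
    · rw [← h3.card]
      refine (Nat.factorization_le_iff_dvd Nat.card_pos.ne' Nat.card_pos.ne').2
        (Subgroup.card_dvd_of_le ?_) p
      exact inf_le_inf_right _ inf_le_left
    · refine (Nat.factorization_le_iff_dvd Nat.card_pos.ne' Nat.card_pos.ne').2
        (Subgroup.card_dvd_of_le ?_) p
      exact le_inf (le_inf hR Subgroup.le_normalizer) (h3.le_cent.trans inf_le_right)

/-- the conjugates under `H` -/
def orb (H R : Subgroup Γ) : Set (Subgroup Γ) := {S | ∃ h ∈ H, S = cj h R}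

/-- stability under conjugation by `H` -/
def Stb (H : Subgroup Γ) (X : Set (Subgroup Γ)) : Prop := ∀ h ∈ H, ∀ R ∈ X, cj h R ∈ X

theorem stb_orb (H R : Subgroup Γ) : Stb H (orb H R) := by
  rintro h hh _ ⟨k, hk, rfl⟩
  exact ⟨h * k, H.mul_mem hh hk, (cj_mul h k R).symm⟩

theorem orb_symm {H R S : Subgroup Γ} (h : S ∈ orb H R) : R ∈ orb H S := by
  obtain ⟨k, hk, rfl⟩ := h
  exact ⟨k⁻¹, H.inv_mem hk, (cj_inv_cj k R).symm⟩

theorem self_orb (H R : Subgroup Γ) : R ∈ orb H R := ⟨1, H.one_mem, (cj_one R).symm⟩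

theorem orb_eq {H R S : Subgroup Γ} (h : S ∈ orb H R) : orb H S = orb H R := by
  ext T
  constructor
  · rintro ⟨k, hk, rfl⟩
    exact stb_orb H R k hk S h
  · rintro ⟨k, hk, rfl⟩
    exact stb_orb H S k hk R (orb_symm h)

theorem SX_conj {p : ℕ} {N H : Subgroup Γ} {X : Set (Subgroup Γ)} (hX : Stb H X)
    (hN : ∀ h ∈ H, ∀ n ∈ N, h * n * h⁻¹ ∈ N) {h x : Γ} (hh : h ∈ H) (hx : x ∈ SX p N H X) :
    h * x * h⁻¹ ∈ SX p N H X := by
  obtain ⟨h1, h2, R, hR, h3⟩ := hx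
  refine ⟨hN h hh x h1, ?_, cj h R, hX h hh R hR, h3.conj hh⟩
  have h4 : orderOf (h * x * h⁻¹) = orderOf x := by
    have h5 : h * x * h⁻¹ = MulAut.conj h x := (MulAut.conj_apply h x).symm
    rw [h5]
    exact MulEquiv.orderOf_eq _ _
  rwa [h4]

theorem SX_mono {p : ℕ} {N H : Subgroup Γ} {X Y : Set (Subgroup Γ)} (h : X ⊆ Y) :
    SX p N H X ⊆ SX p N H Y := by
  rintro x ⟨h1, h2, R, hR, h3⟩
  exact ⟨h1, h2, R, h hR, h3⟩

theorem SX_union {p : ℕ} {N H : Subgroup Γ} (X Y : Set (Subgroup Γ)) :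
    SX p N H (X ∪ Y) = SX p N H X ∪ SX p N H Y := by
  ext x
  constructor
  · rintro ⟨h1, h2, R, hR | hR, h3⟩
    · exact Or.inl ⟨h1, h2, R, hR, h3⟩
    · exact Or.inr ⟨h1, h2, R, hR, h3⟩
  · rintro (hx | hx)
    · exact SX_mono Set.subset_union_left hx
    · exact SX_mono Set.subset_union_right hx

theorem SX_disj {p : ℕ} [Fact p.Prime] {N H : Subgroup Γ} {X Y : Set (Subgroup Γ)}
    (hX : Stb H X) (hd : ∀ R ∈ X, R ∉ Y) {x : Γ} (hx : x ∈ SX p N H X) : x ∉ SX p N H Y := by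
  rintro ⟨_, _, S, hS, h4⟩
  obtain ⟨_, _, R, hR, h3⟩ := hx
  obtain ⟨h, hh, rfl⟩ := h3.conj_of h4
  exact hd _ (hX h hh R hR) hS

theorem sc_eq {p : ℕ} [Fact p.Prime] {N H R : Subgroup Γ} (hR : R ≤ H) (hp : IsPGroup p R)
    (hN : ∀ h ∈ H, ∀ n ∈ N, h * n * h⁻¹ ∈ N) : SC p N H R = SX p N H (orb H R) := by
  ext x
  constructor
  · rintro ⟨h, hh, hx⟩
    rw [sr_iff hR hp] at hx
    have h1 : h * x * h⁻¹ ∈ SX p N H (orb H R) := ⟨hx.1, hx.2.1, R, self_orb H R, hx.2.2⟩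
    have h2 := SX_conj (stb_orb H R) hN (H.inv_mem hh) h1
    simpa [mul_assoc] using h2
  · rintro ⟨h1, h2, S, ⟨k, hk, rfl⟩, h3⟩
    refine ⟨k⁻¹, H.inv_mem hk, ?_⟩
    rw [sr_iff hR hp]
    refine ⟨hN _ (H.inv_mem hk) x h1, ?_, ?_⟩
    · have h4 : orderOf (k⁻¹ * x * k⁻¹⁻¹) = orderOf x := by
        have h5 : k⁻¹ * x * k⁻¹⁻¹ = MulAut.conj k⁻¹ x := (MulAut.conj_apply k⁻¹ x).symm
        rw [h5]
        exact MulEquiv.orderOf_eq _ _
      rwa [h4]
    · have h4 := h3.conj (H.inv_mem hk)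
      rwa [cj_inv_cj] at h4

/-- The subgroups of the sum. -/
def Good (p : ℕ) (N H R : Subgroup Γ) : Prop := IsPGroup p R ∧ R ≤ H ∧ H ≤ N ⊔ R

theorem stb_good {p : ℕ} {N H : Subgroup Γ} (hN : ∀ h ∈ H, ∀ n ∈ N, h * n * h⁻¹ ∈ N) :
    Stb H {R | Good p N H R} := by
  rintro h hh R ⟨h1, h2, h3⟩
  refine ⟨cj_pgroup h1, cj_le hh h2, ?_⟩
  have h4 : H ≤ cj h H := by
    intro x hx
    rw [mem_cj]
    exact H.mul_mem (H.mul_mem (H.inv_mem hh) hx) hh
  have h5 : cj h (N ⊔ R) ≤ N ⊔ cj h R := by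
    rw [cj_eq_map, Subgroup.map_sup, ← cj_eq_map, ← cj_eq_map]
    refine sup_le_sup_right ?_ _
    intro x hx
    rw [mem_cj] at hx
    have h6 := hN h hh _ hx
    simpa [mul_assoc] using h6
  exact h4.trans ((cj_mono h h3).trans h5)

theorem mem_of_sup {N H R : Subgroup Γ} (hN : ∀ h ∈ H, ∀ n ∈ N, h * n * h⁻¹ ∈ N) (hR : R ≤ H)
    {y : Γ} (hy : y ∈ N ⊔ R) : ∃ n ∈ N, ∃ r ∈ R, y = n * r := by
  have h1 : y ∈ Subgroup.closure ((N : Set Γ) ∪ R) := by
    rwa [← Subgroup.sup_eq_closure]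
  clear hy
  induction h1 using Subgroup.closure_induction with
  | mem y hy =>
    rcases hy with hy | hy
    · exact ⟨y, hy, 1, R.one_mem, by simp⟩
    · exact ⟨1, N.one_mem, y, hy, by simp⟩
  | one => exact ⟨1, N.one_mem, 1, R.one_mem, by simp⟩
  | mul a b ha hb iha ihb =>
    obtain ⟨n, hn, r, hr, rfl⟩ := iha
    obtain ⟨m, hm, s, hs, rfl⟩ := ihb
    refine ⟨n * (r * m * r⁻¹), N.mul_mem hn (hN r (hR hr) m hm), r * s, R.mul_mem hr hs, ?_⟩
    group
  | inv a ha iha =>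
    obtain ⟨n, hn, r, hr, rfl⟩ := iha
    refine ⟨r⁻¹ * n⁻¹ * r⁻¹⁻¹, hN _ (hR (R.inv_mem hr)) _ (N.inv_mem hn), r⁻¹, R.inv_mem hr, ?_⟩
    group

theorem s0_eq {p : ℕ} [Fact p.Prime] {N H : Subgroup Γ} (hle : N ≤ H)
    (hN : ∀ h ∈ H, ∀ n ∈ N, h * n * h⁻¹ ∈ N) (hq : ∀ h ∈ H, ∃ k : ℕ, h ^ p ^ k ∈ N) :
    S0 p N H = SX p N H {R | Good p N H R} := by
  ext x
  constructor
  · rintro ⟨h1, h2, h3⟩
    obtain ⟨R, _, hR⟩ := exists_syl (p := p) (H := H) (x := x) (Q := ⊥) bot_le IsPGroup.of_bot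
      (by rintro r hr; rw [Subgroup.mem_bot.1 hr]; simp)
    refine ⟨h1, h2, R, ⟨hR.pg, hR.le, ?_⟩, hR⟩
    set C := H ⊓ Subgroup.centralizer {x} with hC
    -- inside `C`
    let P : Sylow p C := Sylow.ofCard (R.subgroupOf C) hR.card_subgroupOf
    have hNC : (N.subgroupOf C).Normal := by
      refine ⟨fun n hn g => ?_⟩
      rw [Subgroup.mem_subgroupOf] at hn ⊢
      exact hN _ (Subgroup.mem_inf.1 g.2).1 _ hn
    have hq2 : IsPGroup p (C ⧸ N.subgroupOf C) := by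
      intro g
      obtain ⟨g, rfl⟩ := QuotientGroup.mk_surjective g
      obtain ⟨k, hk⟩ := hq g (Subgroup.mem_inf.1 g.2).1
      refine ⟨k, ?_⟩
      rw [← QuotientGroup.mk_pow, QuotientGroup.eq_one_iff, Subgroup.mem_subgroupOf]
      exact hk
    have h4 : N.subgroupOf C ⊔ R.subgroupOf C = ⊤ := by
      rw [← Subgroup.index_eq_one]
      have h5 : (N.subgroupOf C ⊔ R.subgroupOf C).index ∣ (N.subgroupOf C).index :=
        Subgroup.index_dvd_of_le le_sup_left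
      have h6 : (N.subgroupOf C ⊔ R.subgroupOf C).index ∣ (R.subgroupOf C).index :=
        Subgroup.index_dvd_of_le le_sup_right
      obtain ⟨n, hn⟩ := (IsPGroup.iff_card).1 hq2
      rw [Subgroup.index_eq_card (N.subgroupOf C), hn] at h5
      have h7 : ¬ p ∣ (R.subgroupOf C).index := P.not_dvd_index
      obtain ⟨m, hm, h8⟩ := (Nat.dvd_prime_pow Fact.out).1 h5
      rcases m with _ | m
      · rw [h8, pow_zero]
      · exfalso
        apply h7
        refine dvd_trans ?_ h6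
        rw [h8, pow_succ]
        exact dvd_mul_left _ _
    intro h hh
    obtain ⟨n, hn, h5⟩ := h3 h hh
    have h6 : n⁻¹ * h ∈ C := by
      refine Subgroup.mem_inf.2 ⟨H.mul_mem (H.inv_mem (hle hn)) hh, ?_⟩
      rw [Subgroup.mem_centralizer_singleton_iff]
      have h7 := congrArg (fun t => n⁻¹ * t * h) h5
      simpa [mul_assoc] using h7
    have h7 : (⟨n⁻¹ * h, h6⟩ : C) ∈ N.subgroupOf C ⊔ R.subgroupOf C := by
      rw [h4]
      trivial
    have h8 : n⁻¹ * h ∈ N ⊔ R := by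
      have h9 : (N.subgroupOf C ⊔ R.subgroupOf C).map C.subtype ≤ N ⊔ R := by
        rw [Subgroup.map_sup]
        refine sup_le_sup ?_ ?_
        · rintro _ ⟨g, hg, rfl⟩
          exact Subgroup.mem_subgroupOf.1 hg
        · rintro _ ⟨g, hg, rfl⟩
          exact Subgroup.mem_subgroupOf.1 hg
      exact h9 ⟨_, h7, rfl⟩
    have h9 := (N ⊔ R).mul_mem ((le_sup_left : N ≤ N ⊔ R) hn) h8
    simpa using h9
  · rintro ⟨h1, h2, R, ⟨_, hR, h3⟩, h4⟩
    refine ⟨h1, h2, ?_⟩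
    intro h hh
    obtain ⟨n, hn, r, hr, rfl⟩ := mem_of_sup hN hR (h3 hh)
    refine ⟨n, hn, ?_⟩
    have h5 := h4.cent r hr
    rw [mul_inv_rev, mul_assoc n r x, h5]
    group

end

end Pool.Agent.Y85.NV
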